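import Mathlib

/-!
Residue classes `s a(p) / t` modulo the primes of a finite set: points `(s, m)` in many of the
lattices `m ≡ s a(p) (mod p)`.
-/

set_option autoImplicit false

namespace Pool.Agent.Zk72.Dil

open Finset

/-- `m ≡ s a(p)` modulo `p` -/
def On (a : (p : ℕ) → ZMod p) (s m p : ℕ) : Prop := (m : ZMod p) = (s : ZMod p) * a p

instance (a : (p : ℕ) → ZMod p) (s m p : ℕ) : Decidable (On a s m p) := by
  unfold On; infer_instance

/-! ### elements of a window in a residue class -/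

theorem window_le {u N r : ℕ} {A : Finset ℕ} (hA : A ⊆ Ioc u (u + N))
    (h : ∀ n ∈ A, ∀ n' ∈ A, n ≡ n' [MOD r]) : (A.card : ℝ) ≤ N / r + 1 := by
  have h1 : A.card ≤ N / r + 1 := by
    have hinj : Set.InjOn (fun n => (n - u - 1) / r) (A : Set ℕ) := by
      intro n hn n' hn' he
      simp only at he
      have m1 := mem_Ioc.1 (hA hn)
      have m2 := mem_Ioc.1 (hA hn')
      have hc : n - u - 1 ≡ n' - u - 1 [MOD r] := by
        have := h n hn n' hn'
        have e1 : n = (n - u - 1) + (u + 1) := by omega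
        have e2 : n' = (n' - u - 1) + (u + 1) := by omega
        rw [e1, e2] at this
        exact Nat.ModEq.add_right_cancel' _ this
      have e3 : (n - u - 1) % r = (n' - u - 1) % r := hc
      have e4 := Nat.div_add_mod (n - u - 1) r
      have e5 := Nat.div_add_mod (n' - u - 1) r
      rw [he, e3] at e4
      omega
    have hsub : A.image (fun n => (n - u - 1) / r) ⊆ range (N / r + 1) := by
      intro k hk
      obtain ⟨n, hn, rfl⟩ := mem_image.1 hk
      have m1 := mem_Ioc.1 (hA hn)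
      rw [mem_range]
      have : n - u - 1 ≤ N := by omega
      exact Nat.lt_succ_of_le (Nat.div_le_div_right this)
    calc A.card = (A.image (fun n => (n - u - 1) / r)).card := (card_image_of_injOn hinj).symm
      _ ≤ (range (N / r + 1)).card := card_le_card hsub
      _ = N / r + 1 := card_range _
  calc (A.card : ℝ) ≤ ((N / r + 1 : ℕ) : ℝ) := by exact_mod_cast h1
    _ = ((N / r : ℕ) : ℝ) + 1 := by push_cast; ring
    _ ≤ N / r + 1 := by
      have := @Nat.cast_div_le ℝ _ _ _ N r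
      linarith

/-- the elements `n` of the window with `t n ≡ s a(p)` -/
def cl (a : (p : ℕ) → ZMod p) (u N s t p : ℕ) : Finset ℕ :=
  (Ioc u (u + N)).filter fun n => On a s (t * n) p

theorem cl_modEq {a : (p : ℕ) → ZMod p} {u N s t p : ℕ} (hp : p.Prime) (ht : ¬ p ∣ t)
    {n n' : ℕ} (hn : n ∈ cl a u N s t p) (hn' : n' ∈ cl a u N s t p) : n ≡ n' [MOD p] := by
  have := Fact.mk hp
  have h1 := (mem_filter.1 hn).2
  have h2 := (mem_filter.1 hn').2
  unfold On at h1 h2
  rw [← h2] at h1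
  push_cast at h1
  have ht' : (t : ZMod p) ≠ 0 := by
    rwa [Ne, ZMod.natCast_eq_zero_iff]
  exact (ZMod.natCast_eq_natCast_iff _ _ _).1 (mul_left_cancel₀ ht' h1)

theorem cl_card_ge {a : (p : ℕ) → ZMod p} {u N s t p : ℕ} (hp : p.Prime) (ht : ¬ p ∣ t) :
    (N : ℝ) / p - 1 ≤ ((cl a u N s t p).card : ℝ) := by
  have := Fact.mk hp
  have ht' : (t : ZMod p) ≠ 0 := by
    rwa [Ne, ZMod.natCast_eq_zero_iff]
  set z : ZMod p := (t : ZMod p)⁻¹ * ((s : ZMod p) * a p) - ((u + 1 : ℕ) : ZMod p) with hz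
  have h1 : N / p ≤ (cl a u N s t p).card := by
    have hinj : Set.InjOn (fun k => u + 1 + z.val + k * p) (range (N / p) : Set ℕ) := by
      intro k _ k' _ h
      have h' : k * p = k' * p := by simpa using h
      exact Nat.eq_of_mul_eq_mul_right hp.pos h'
    calc N / p = ((range (N / p)).image (fun k => u + 1 + z.val + k * p)).card := by
          rw [card_image_of_injOn hinj, card_range]
      _ ≤ _ := by
        apply card_le_card
        intro n hn
        obtain ⟨k, hk, rfl⟩ := mem_image.1 hn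
        rw [mem_range] at hk
        have hv : z.val < p := ZMod.val_lt z
        have hk2 : (k + 1) * p ≤ N := by
          calc (k + 1) * p ≤ (N / p) * p := Nat.mul_le_mul_right _ hk
            _ ≤ N := Nat.div_mul_le_self _ _
        rw [add_mul, one_mul] at hk2
        refine mem_filter.2 ⟨mem_Ioc.2 ⟨by omega, by omega⟩, ?_⟩
        unfold On
        push_cast
        rw [ZMod.natCast_zmod_val]
        have e : ((p : ℕ) : ZMod p) = 0 := ZMod.natCast_self p
        rw [e, mul_zero, add_zero, hz]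
        push_cast
        field_simp
        ring
  have h2 : (N : ℝ) / p - 1 ≤ ((N / p : ℕ) : ℝ) := by
    have hp0 : (0 : ℝ) < p := by exact_mod_cast hp.pos
    have h3 : N < (N / p + 1) * p := by
      have := Nat.lt_div_mul_add hp.pos (a := N)
      rw [add_mul, one_mul]
      exact this
    have h4 : (N : ℝ) < (((N / p : ℕ) : ℝ) + 1) * p := by exact_mod_cast h3
    rw [sub_le_iff_le_add, div_le_iff₀ hp0]
    exact h4.le
  exact h2.trans (by exact_mod_cast h1)

theorem cl_dvd_card_le {a : (p : ℕ) → ZMod p} {u N s t p d : ℕ} (hp : p.Prime) (ht : ¬ p ∣ t)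
    (hdp : ¬ p ∣ d) :
    ((((cl a u N s t p).filter fun n => d ∣ n).card : ℕ) : ℝ) ≤ (N : ℝ) / (p * d) + 1 := by
  have h := window_le (u := u) (N := N) (r := p * d)
    (A := (cl a u N s t p).filter fun n => d ∣ n)
    ((filter_subset _ _).trans (filter_subset _ _)) (by
      intro n hn n' hn'
      rw [mem_filter] at hn hn'
      have h1 := cl_modEq hp ht hn.1 hn'.1
      have h2 : n ≡ n' [MOD d] := by
        rw [Nat.ModEq, Nat.mod_eq_zero_of_dvd hn.2, Nat.mod_eq_zero_of_dvd hn'.2]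
      exact (Nat.modEq_and_modEq_iff_modEq_mul ((hp.coprime_iff_not_dvd).2 hdp)).1 ⟨h1, h2⟩)
  push_cast at h
  exact h

/-! ### the first moment -/

/-- the number of the primes `p ∈ Q` with `m ≡ s a(p)` -/
def R (Q : Finset ℕ) (a : (p : ℕ) → ZMod p) (s m : ℕ) : ℕ := (Q.filter fun p => On a s m p).card

/-- the elements of the window which have a small common divisor with `s` -/
def good (u N G s : ℕ) : Finset ℕ := (Ioc u (u + N)).filter fun n => s.gcd n < G

theorem sum_R (Q : Finset ℕ) (a : (p : ℕ) → ZMod p) (u N G s t : ℕ) :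
    ∑ n ∈ good u N G s, R Q a s (t * n) =
      ∑ p ∈ Q, ((cl a u N s t p).filter fun n => s.gcd n < G).card := by
  unfold R
  simp_rw [card_filter]
  rw [sum_comm]
  refine sum_congr rfl fun p _ => ?_
  rw [good, cl, sum_filter, sum_filter]
  refine sum_congr rfl fun n _ => ?_
  by_cases h1 : s.gcd n < G <;> by_cases h2 : On a s (t * n) p <;> simp [h1, h2]

theorem first {Q : Finset ℕ} {a : (p : ℕ) → ZMod p} {u N G s t : ℕ} {x : ℝ} (hx : 0 < x)
    (hQ : ∀ p ∈ Q, p.Prime ∧ x ≤ p ∧ (p : ℝ) ≤ 2 * x) (hs : 0 < s) (hs2 : ∀ p ∈ Q, s < p)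
    (ht : 0 < t) (ht2 : ∀ p ∈ Q, t < p)
    (hG : ∑ d ∈ s.divisors.filter (fun d => G ≤ d), (1 : ℝ) / d ≤ 1 / 8)
    (hN : 1 + (s.divisors.card : ℝ) ≤ N / (8 * x)) :
    (Q.card : ℝ) * (N / (4 * x)) ≤ ((∑ n ∈ good u N G s, R Q a s (t * n) : ℕ) : ℝ) := by
  rw [sum_R]
  push_cast
  rw [← nsmul_eq_mul]
  refine card_nsmul_le_sum Q _ _ fun p hp => ?_
  obtain ⟨hpp, hp1, hp2⟩ := hQ p hp
  have htp : ¬ p ∣ t := fun h => absurd (Nat.le_of_dvd ht h) (not_le.2 (ht2 p hp))
  have hp0 : (0 : ℝ) < p := by exact_mod_cast hpp.pos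
  have h1 := cl_card_ge (a := a) (u := u) (N := N) (s := s) hpp htp
  have h2 : (cl a u N s t p).card =
      ((cl a u N s t p).filter fun n => s.gcd n < G).card +
        ((cl a u N s t p).filter fun n => ¬ s.gcd n < G).card :=
    (card_filter_add_card_filter_not _).symm
  have h3 : (((cl a u N s t p).filter fun n => ¬ s.gcd n < G).card : ℝ) ≤
      ∑ d ∈ s.divisors.filter (fun d => G ≤ d), ((N : ℝ) / (p * d) + 1) := by
    have hsub : (cl a u N s t p).filter (fun n => ¬ s.gcd n < G) ⊆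
        (s.divisors.filter (fun d => G ≤ d)).biUnion
          fun d => (cl a u N s t p).filter fun n => d ∣ n := by
      intro n hn
      rw [mem_filter] at hn
      rw [mem_biUnion]
      refine ⟨s.gcd n, mem_filter.2 ⟨Nat.mem_divisors.2 ⟨Nat.gcd_dvd_left _ _, hs.ne'⟩,
        not_lt.1 hn.2⟩, mem_filter.2 ⟨hn.1, Nat.gcd_dvd_right _ _⟩⟩
    calc (((cl a u N s t p).filter fun n => ¬ s.gcd n < G).card : ℝ)
        ≤ ((∑ d ∈ s.divisors.filter (fun d => G ≤ d),
          ((cl a u N s t p).filter fun n => d ∣ n).card : ℕ) : ℝ) := by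
          exact_mod_cast (card_le_card hsub).trans card_biUnion_le
      _ = ∑ d ∈ s.divisors.filter (fun d => G ≤ d),
          ((((cl a u N s t p).filter fun n => d ∣ n).card : ℕ) : ℝ) := by push_cast; rfl
      _ ≤ _ := by
          refine sum_le_sum fun d hd => ?_
          rw [mem_filter, Nat.mem_divisors] at hd
          have hd0 : 0 < d := Nat.pos_of_dvd_of_pos hd.1.1 hs
          refine cl_dvd_card_le hpp htp fun h => ?_
          have := Nat.le_of_dvd hs (h.trans hd.1.1)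
          exact absurd this (not_le.2 (hs2 p hp))
  have h4 : ∑ d ∈ s.divisors.filter (fun d => G ≤ d), ((N : ℝ) / (p * d) + 1) ≤
      N / x * (1 / 8) + s.divisors.card := by
    rw [sum_add_distrib]
    refine add_le_add ?_ ?_
    · calc ∑ d ∈ s.divisors.filter (fun d => G ≤ d), (N : ℝ) / (p * d)
          = N / p * ∑ d ∈ s.divisors.filter (fun d => G ≤ d), (1 : ℝ) / d := by
            rw [mul_sum]
            refine sum_congr rfl fun d _ => ?_
            rw [div_mul_div_comm, mul_one]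
        _ ≤ N / x * (1 / 8) := by
            refine mul_le_mul ?_ hG (sum_nonneg fun d _ => by positivity) (by positivity)
            exact div_le_div_of_nonneg_left (Nat.cast_nonneg _) hx hp1
    · rw [sum_const, nsmul_eq_mul, mul_one]
      exact_mod_cast card_le_card (filter_subset _ _)
  have h5 : (N : ℝ) / (2 * x) ≤ N / p :=
    div_le_div_of_nonneg_left (Nat.cast_nonneg _) hp0 hp2
  have e : ((cl a u N s t p).card : ℝ) =
      (((cl a u N s t p).filter fun n => s.gcd n < G).card : ℝ) +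
        (((cl a u N s t p).filter fun n => ¬ s.gcd n < G).card : ℝ) := by exact_mod_cast h2
  have e1 : (N : ℝ) / (2 * x) = 4 * (N / (8 * x)) := by field_simp; ring
  have e2 : (N : ℝ) / x * (1 / 8) = N / (8 * x) := by field_simp
  have e3 : (N : ℝ) / (4 * x) = 2 * (N / (8 * x)) := by field_simp; ring
  rw [e3]
  rw [e1] at h5
  rw [e2] at h4
  linarith

/-! ### pairs of primes -/

/-- the points `(s, m)` with a small common divisor in the lattices of `p` and of `q` -/
def pts (a : (p : ℕ) → ZMod p) (S M G p q : ℕ) : Finset (ℕ × ℕ) :=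
  (Ico S (2 * S) ×ˢ Icc 1 M).filter fun v => v.1.gcd v.2 < G ∧ On a v.1 v.2 p ∧ On a v.1 v.2 q

theorem dvd_det {a : (p : ℕ) → ZMod p} {s m s' m' p : ℕ} (h : On a s m p) (h' : On a s' m' p) :
    (p : ℤ) ∣ (m : ℤ) * s' - m' * s := by
  rw [← ZMod.intCast_zmod_eq_zero_iff_dvd]
  unfold On at h h'
  push_cast
  rw [h, h']
  ring

theorem cross {a : (p : ℕ) → ZMod p} {s m s' m' p q : ℕ} (hp : p.Prime) (hq : q.Prime)
    (hpq : p ≠ q) (h1 : On a s m p) (h2 : On a s' m' p) (h3 : On a s m q) (h4 : On a s' m' q)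
    (hne : (m : ℤ) * s' - m' * s ≠ 0) : (p * q : ℤ) ≤ |(m : ℤ) * s' - m' * s| := by
  have hd : ((p * q : ℕ) : ℤ) ∣ (m : ℤ) * s' - m' * s := by
    have hc : IsCoprime (p : ℤ) (q : ℤ) :=
      Nat.isCoprime_iff_coprime.2 ((Nat.coprime_primes hp hq).2 hpq)
    push_cast
    exact hc.mul_dvd (dvd_det h1 h2) (dvd_det h3 h4)
  have := Int.le_of_dvd (abs_pos.2 hne) ((dvd_abs _ _).2 hd)
  push_cast at this
  exact this

theorem pts_card {a : (p : ℕ) → ZMod p} {S M G p q : ℕ} {x : ℝ} (hx : 0 < x) (hS : 0 < S)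
    (hp : p.Prime) (hq : q.Prime) (hpq : p ≠ q) (hpx : x ≤ p) (hqx : x ≤ q) :
    ((pts a S M G p q).card : ℝ) ≤ G * (1 + 4 * M * S / x ^ 2) := by
  have hp0 : (0 : ℝ) < p := by exact_mod_cast hp.pos
  have hq0 : (0 : ℝ) < q := by exact_mod_cast hq.pos
  set key : ℕ × ℕ → ℕ := fun v => ⌊(v.2 : ℝ) * (4 * (S : ℝ) ^ 2) / (v.1 * (p * q))⌋₊ with hkey
  have hmem : ∀ v ∈ pts a S M G p q, S ≤ v.1 ∧ v.1 < 2 * S ∧ 1 ≤ v.2 ∧ v.2 ≤ M ∧
      v.1.gcd v.2 < G ∧ On a v.1 v.2 p ∧ On a v.1 v.2 q := by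
    intro v hv
    rw [pts, mem_filter, mem_product, mem_Ico, mem_Icc] at hv
    tauto
  have hinj : Set.InjOn (fun v => (key v, v.1.gcd v.2)) (pts a S M G p q : Set (ℕ × ℕ)) := by
    intro v hv w hw he
    obtain ⟨a1, a2, a3, a4, a5, a6, a7⟩ := hmem v hv
    obtain ⟨b1, b2, b3, b4, b5, b6, b7⟩ := hmem w hw
    simp only [Prod.mk.injEq] at he
    obtain ⟨he1, he2⟩ := he
    have hv1 : (0 : ℝ) < v.1 := by exact_mod_cast (by omega : 0 < v.1)
    have hw1 : (0 : ℝ) < w.1 := by exact_mod_cast (by omega : 0 < w.1)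
    have hdet : (v.2 : ℤ) * w.1 - w.2 * v.1 = 0 := by
      by_contra hne
      have hc := cross hp hq hpq a6 b6 a7 b7 hne
      have hc' : (p : ℝ) * q ≤ |(v.2 : ℝ) * w.1 - w.2 * v.1| := by exact_mod_cast hc
      have hlt : |(v.2 : ℝ) * (4 * (S : ℝ) ^ 2) / (v.1 * (p * q)) -
          (w.2 : ℝ) * (4 * (S : ℝ) ^ 2) / (w.1 * (p * q))| < 1 := by
        have f1 := Nat.floor_le (show (0 : ℝ) ≤ (v.2 : ℝ) * (4 * (S : ℝ) ^ 2) / (v.1 * (p * q))
          by positivity)
        have f2 := Nat.lt_floor_add_one ((v.2 : ℝ) * (4 * (S : ℝ) ^ 2) / (v.1 * (p * q)))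
        have f3 := Nat.floor_le (show (0 : ℝ) ≤ (w.2 : ℝ) * (4 * (S : ℝ) ^ 2) / (w.1 * (p * q))
          by positivity)
        have f4 := Nat.lt_floor_add_one ((w.2 : ℝ) * (4 * (S : ℝ) ^ 2) / (w.1 * (p * q)))
        have he1' : (⌊(v.2 : ℝ) * (4 * (S : ℝ) ^ 2) / (v.1 * (p * q))⌋₊ : ℝ) =
            ⌊(w.2 : ℝ) * (4 * (S : ℝ) ^ 2) / (w.1 * (p * q))⌋₊ := congrArg Nat.cast he1
        rw [abs_lt]
        constructor <;> linarith
      have e : (v.2 : ℝ) * (4 * (S : ℝ) ^ 2) / (v.1 * (p * q)) -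
          (w.2 : ℝ) * (4 * (S : ℝ) ^ 2) / (w.1 * (p * q)) =
          ((v.2 : ℝ) * w.1 - w.2 * v.1) * ((4 * (S : ℝ) ^ 2) / (v.1 * w.1 * (p * q))) := by
        field_simp
      rw [e, abs_mul, abs_of_pos (a := (4 * (S : ℝ) ^ 2) / (v.1 * w.1 * (p * q)))
        (by have : (0 : ℝ) < S := by exact_mod_cast hS
            positivity)] at hlt
      have h5 : (v.1 : ℝ) * w.1 ≤ 4 * (S : ℝ) ^ 2 := by
        have g1 : (v.1 : ℝ) ≤ 2 * S := by exact_mod_cast a2.le
        have g2 : (w.1 : ℝ) ≤ 2 * S := by exact_mod_cast b2.le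
        nlinarith
      have h6 : 1 ≤ |(v.2 : ℝ) * w.1 - w.2 * v.1| * ((4 * (S : ℝ) ^ 2) / (v.1 * w.1 * (p * q))) := by
        calc (1 : ℝ) = (p * q) * ((v.1 * w.1) / (v.1 * w.1 * (p * q))) := by field_simp
          _ ≤ |(v.2 : ℝ) * w.1 - w.2 * v.1| * ((4 * (S : ℝ) ^ 2) / (v.1 * w.1 * (p * q))) := by
            gcongr
      linarith
    have hdet' : v.2 * w.1 = w.2 * v.1 := by
      have : (v.2 : ℤ) * w.1 = w.2 * v.1 := by linarith
      exact_mod_cast this
    have hg : v.1 * w.1.gcd w.2 = w.1 * v.1.gcd v.2 := by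
      rw [← Nat.gcd_mul_left, ← Nat.gcd_mul_left, mul_comm v.1 w.2, ← hdet', mul_comm v.1 w.1,
        mul_comm v.2 w.1]
    have hg0 : 0 < v.1.gcd v.2 := Nat.gcd_pos_of_pos_left _ (by omega)
    rw [← he2] at hg
    have e1 : v.1 = w.1 := Nat.eq_of_mul_eq_mul_right hg0 hg
    have e2 : v.2 = w.2 := by
      rw [e1] at hdet'
      exact Nat.eq_of_mul_eq_mul_right (by omega) hdet'
    exact Prod.ext e1 e2
  have hsub : (pts a S M G p q).image (fun v => (key v, v.1.gcd v.2)) ⊆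
      range (⌊4 * (M : ℝ) * S / x ^ 2⌋₊ + 1) ×ˢ range G := by
    intro w hw
    obtain ⟨v, hv, rfl⟩ := mem_image.1 hw
    obtain ⟨a1, a2, a3, a4, a5, a6, a7⟩ := hmem v hv
    rw [mem_product, mem_range, mem_range]
    refine ⟨Nat.lt_succ_of_le (Nat.floor_le_floor ?_), a5⟩
    have hS0 : (0 : ℝ) < S := by exact_mod_cast hS
    have g1 : (S : ℝ) ≤ v.1 := by exact_mod_cast a1
    have g2 : (v.2 : ℝ) ≤ M := by exact_mod_cast a4
    have g3 : x ^ 2 ≤ (p : ℝ) * q := by nlinarith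
    calc (v.2 : ℝ) * (4 * (S : ℝ) ^ 2) / (v.1 * (p * q))
        ≤ M * (4 * (S : ℝ) ^ 2) / (S * x ^ 2) := by gcongr
      _ = 4 * (M : ℝ) * S / x ^ 2 := by field_simp
  calc ((pts a S M G p q).card : ℝ)
      = (((pts a S M G p q).image (fun v => (key v, v.1.gcd v.2))).card : ℝ) := by
        rw [card_image_of_injOn hinj]
    _ ≤ ((range (⌊4 * (M : ℝ) * S / x ^ 2⌋₊ + 1) ×ˢ range G).card : ℝ) := by
        exact_mod_cast card_le_card hsub
    _ = (⌊4 * (M : ℝ) * S / x ^ 2⌋₊ + 1) * G := by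
        rw [card_product, card_range, card_range]; push_cast; ring
    _ ≤ (4 * (M : ℝ) * S / x ^ 2 + 1) * G := by
        have := Nat.floor_le (show (0 : ℝ) ≤ 4 * (M : ℝ) * S / x ^ 2 by positivity)
        gcongr
    _ = _ := by ring

end Pool.Agent.Zk72.Dil
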