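import Pool.Agent.Zk72.Dil.Second
import Pool.Agent.R416.CV.Asym
import Pool.Agent.H353R2.Z2

/-!
Dilates of a choice of residue classes: asymptotic forms.
-/

set_option autoImplicit false

namespace Pool.Agent.Zk72.Dil

open Finset Filter Topology
open Pool.Agent.H170R2.PC

/-- The choice `p ↦ s a(p) / t - u`. -/
def aff (a : (p : ℕ) → ZMod p) (s t u : ℕ) : (p : ℕ) → ZMod p :=
  fun p => (s : ZMod p) * (t : ZMod p)⁻¹ * a p - (u : ZMod p)

theorem covered_aff {α : ℝ} {N : ℕ} {a : (p : ℕ) → ZMod p} {s t j : ℕ}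
    (ht : ∀ p ∈ PD α N, ¬ p ∣ t) :
    coveredCount α N (aff a s t (j * N)) = (cov (PD α N) a N (s, t, j)).card := by
  classical
  rw [coveredCount_eq]
  refine card_bij (fun n _ => j * N + n) ?_ ?_ ?_
  · intro n hn
    rw [Cov, mem_filter, mem_Icc] at hn
    obtain ⟨⟨h1, h2⟩, p, hp, h⟩ := hn
    rw [cov, mem_filter, mem_Ioc]
    refine ⟨⟨by simp only; omega, by simp only; omega⟩, p, hp, ?_⟩
    have := Fact.mk (mem_PD.1 hp).1
    have ht' : (t : ZMod p) ≠ 0 := by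
      rw [Ne, ZMod.natCast_eq_zero_iff]
      exact ht p hp
    unfold On
    rw [aff] at h
    push_cast at h ⊢
    rw [h]
    field_simp
    ring
  · intro n _ n' _ h
    simpa using h
  · intro m hm
    rw [cov, mem_filter, mem_Ioc] at hm
    obtain ⟨⟨h1, h2⟩, p, hp, h⟩ := hm
    simp only at h1 h2 h
    refine ⟨m - j * N, ?_, by omega⟩
    rw [Cov, mem_filter, mem_Icc]
    refine ⟨⟨by omega, by omega⟩, p, hp, ?_⟩
    have := Fact.mk (mem_PD.1 hp).1
    have ht' : (t : ZMod p) ≠ 0 := by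
      rw [Ne, ZMod.natCast_eq_zero_iff]
      exact ht p hp
    unfold On at h
    rw [aff, Nat.cast_sub (by omega)]
    push_cast at h ⊢
    have h3 : (m : ZMod p) = s * (t : ZMod p)⁻¹ * a p := by
      field_simp
      linear_combination h
    rw [h3]

theorem PD_props {α : ℝ} {N : ℕ} : ∀ p ∈ PD α N, p.Prime ∧ (N : ℝ) ^ α ≤ p ∧
    (p : ℝ) ≤ 2 * (N : ℝ) ^ α := fun p hp => by
  obtain ⟨h1, h2, h3⟩ := mem_PD.1 hp
  exact ⟨h1, h2, h3.le⟩

/-- the general inequality, for arbitrary parameters -/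
theorem general {α : ℝ} {N : ℕ} (hN : 0 < N) {a : (p : ℕ) → ZMod p} {G S T J D : ℕ} {Y : ℝ}
    (hY0 : 0 ≤ Y) (hK : 0 < (PD α N).card) (hxN : (N : ℝ) ^ α ≤ N)
    (hS : 0 < S) (hS2 : 2 * (S : ℝ) ≤ (N : ℝ) ^ α) (hT : (T : ℝ) < (N : ℝ) ^ α)
    (hD : ∀ m, 1 ≤ m → m ≤ T * J * N → ((Icc 1 T).filter fun t => t ∣ m).card ≤ D)
    {B : Finset (ℕ × ℕ × ℕ)} (hB : B ⊆ Om S T J)
    (hG : ∀ w ∈ B, ∑ d ∈ w.1.divisors.filter (fun d => G ≤ d), (1 : ℝ) / d ≤ 1 / 8)
    (hτ : ∀ w ∈ B, 1 + (w.1.divisors.card : ℝ) ≤ N / (8 * (N : ℝ) ^ α))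
    (hY : ∀ w ∈ B, (coveredCount α N (aff a w.1 w.2.1 (w.2.2 * N)) : ℝ) ≤ Y) :
    (B.card : ℝ) ≤ 16 * (Y / N) * (2 * (S * T * J) * ((N : ℝ) ^ α / (PD α N).card) +
      D * G * ((N : ℝ) ^ (2 * α - 1) + 4 * (S * T * J))) := by
  set x : ℝ := (N : ℝ) ^ α with hxdef
  have hN0 : (0 : ℝ) < N := by exact_mod_cast hN
  have hx : 0 < x := Real.rpow_pos_of_pos hN0 _
  set K : ℝ := ((PD α N).card : ℝ) with hKdef
  have hK0 : 0 < K := by rw [hKdef]; exact_mod_cast hK
  have hS2' : ∀ p ∈ PD α N, 2 * S ≤ p := by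
    intro p hp
    have := (PD_props p hp).2.1
    have h2 : (2 : ℝ) * S ≤ p := hS2.trans this
    exact_mod_cast h2
  have hT' : ∀ p ∈ PD α N, T < p := by
    intro p hp
    have := (PD_props p hp).2.1
    have h2 : (T : ℝ) < p := lt_of_lt_of_le hT this
    exact_mod_cast h2
  have h := bad (Q := PD α N) (a := a) (N := N) (G := G) (S := S) (T := T) (J := J) (D := D)
    (x := x) (Y := Y) hx hS hN PD_props hS2' hT' hD hB hY0 hG hτ (by
      intro w hw
      obtain ⟨-, ⟨c3, c4⟩, -⟩ := mem_Om.1 (hB hw)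
      have := covered_aff (α := α) (N := N) (a := a) (s := w.1) (t := w.2.1) (j := w.2.2)
        (fun p hp hd => by
          have := Nat.le_of_dvd (by omega) hd
          have := hT' p hp
          omega)
      rw [← this]
      exact hY w hw)
  rw [← hKdef] at h
  have e0 : (N : ℝ) ^ (2 * α - 1) = x ^ 2 / N := by
    rw [Real.rpow_sub hN0, Real.rpow_one, hxdef, ← Real.rpow_natCast, ← Real.rpow_mul hN0.le]
    congr 2
    push_cast
    ring
  have h1 : (N : ℝ) / x + 1 ≤ 2 * (N / x) := by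
    have : 1 ≤ (N : ℝ) / x := by rwa [le_div_iff₀ hx, one_mul]
    linarith
  have h2 : (B.card : ℝ) * (K * (N / (4 * x))) ^ 2 ≤
      Y * (S * T * J * (K * (2 * (N / x))) +
      K ^ 2 * (D * (G * (1 + 4 * ((T * J * N : ℕ) : ℝ) * S / x ^ 2)))) := by
    refine h.trans ?_
    gcongr
  have h3 : (0 : ℝ) < (K * (N / (4 * x))) ^ 2 := by positivity
  rw [← div_le_div_iff_of_pos_right h3, mul_div_assoc, div_self h3.ne', mul_one] at h2
  refine h2.trans (le_of_eq ?_)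
  rw [e0]
  push_cast
  field_simp
  ring

theorem ev_log {ε : ℝ} (hε : 0 < ε) : ∀ᶠ N : ℕ in atTop, Real.log N ≤ (N : ℝ) ^ ε := by
  have h := (isLittleO_log_rpow_atTop hε).comp_tendsto tendsto_natCast_atTop_atTop
  have h2 := h.bound (show (0 : ℝ) < 1 by norm_num)
  filter_upwards [h2, eventually_ge_atTop 1] with N hN hN1
  simp only [Function.comp, one_mul, Real.norm_eq_abs] at hN
  have h0 : (0 : ℝ) ≤ (N : ℝ) ^ ε := by positivity
  rw [abs_of_nonneg h0] at hN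
  exact (le_abs_self _).trans hN

theorem part_one {α ε : ℝ} (h0 : 0 < α) (h1 : α < 1) (hε : 0 < ε) :
    ∃ N₀ : ℕ, ∀ N ≥ N₀, ∀ a : (p : ℕ) → ZMod p, ∀ S T J : ℕ, 1 ≤ S → 1 ≤ T → 1 ≤ J →
      2 * (S : ℝ) ≤ (N : ℝ) ^ α → (T : ℝ) < (N : ℝ) ^ α → J ≤ N → ∀ Y : ℝ, 0 ≤ Y →
      (((Om S T J).filter fun w => (coveredCount α N (aff a w.1 w.2.1 (w.2.2 * N)) : ℝ) ≤
        Y).card : ℝ) ≤
        (N : ℝ) ^ ε * (Y / N) * (S * T * J + (N : ℝ) ^ (2 * α - 1)) := by
  set e : ℝ := min (ε / 12) ((1 - α) / 6) with he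
  have he0 : 0 < e := lt_min (by positivity) (by linarith)
  have he1 : e ≤ ε / 12 := min_le_left _ _
  have he2 : e ≤ (1 - α) / 6 := min_le_right _ _
  obtain ⟨C, hC0, hC⟩ := H353.divisor_bound_real e he0
  have ev1 := Pool.Agent.R416.CV.ev_primes h0 h1
  have ev2 := ev_log (show 0 < ε / 2 by positivity)
  have ev3 := ev_const (16 * (C + 2)) (show 0 < (1 - α) / 2 by linarith)
  have ev4 := ev_const (128 + 512 * (C + 2) ^ 2) (show 0 < ε / 2 by linarith)
  obtain ⟨N₀, hN₀⟩ := eventually_atTop.1 (((ev1.and ev2).and (ev3.and ev4)).and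
    (eventually_ge_atTop 1))
  refine ⟨N₀, fun N hN a S T J hS hT hJ hS2 hT2 hJN Y hY => ?_⟩
  obtain ⟨⟨⟨hp, hlog⟩, hc1, hc2⟩, hN1⟩ := hN₀ N hN
  have hN0 : (0 : ℝ) < N := by exact_mod_cast hN1
  have hN1' : (1 : ℝ) ≤ N := by exact_mod_cast hN1
  have hxN : (N : ℝ) ^ α ≤ N := by
    calc (N : ℝ) ^ α ≤ (N : ℝ) ^ (1 : ℝ) := Real.rpow_le_rpow_of_exponent_le hN1' h1.le
      _ = N := Real.rpow_one _
  have hx0 : (0 : ℝ) < (N : ℝ) ^ α := Real.rpow_pos_of_pos hN0 _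
  have hTN : T ≤ N := by
    have : (T : ℝ) ≤ N := hT2.le.trans hxN
    exact_mod_cast this
  have hSN : 2 * S ≤ N := by
    have : 2 * (S : ℝ) ≤ N := hS2.trans hxN
    exact_mod_cast this
  set τ : ℕ := ⌈C * (N : ℝ) ^ (3 * e)⌉₊ with hτdef
  have hτr : (τ : ℝ) ≤ (C + 1) * (N : ℝ) ^ (3 * e) := by
    have h1 := Nat.ceil_lt_add_one (show 0 ≤ C * (N : ℝ) ^ (3 * e) by positivity)
    have h2 : (1 : ℝ) ≤ (N : ℝ) ^ (3 * e) := Real.one_le_rpow hN1' (by positivity)
    rw [← hτdef] at h1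
    linarith
  have hdiv : ∀ m : ℕ, m ≠ 0 → m ≤ N ^ 3 → m.divisors.card ≤ τ := by
    intro m hm hm3
    have h1 := hC m hm
    have h2 : (m : ℝ) ^ e ≤ (N : ℝ) ^ (3 * e) := by
      have : (m : ℝ) ≤ (N : ℝ) ^ (3 : ℝ) := by
        rw [show (3 : ℝ) = ((3 : ℕ) : ℝ) by norm_num, Real.rpow_natCast]
        exact_mod_cast hm3
      rw [Real.rpow_mul hN0.le]
      exact Real.rpow_le_rpow (Nat.cast_nonneg _) this he0.le
    have h3 : (m.divisors.card : ℝ) ≤ τ := by
      refine (h1.trans ?_).trans (Nat.le_ceil _)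
      gcongr
    exact_mod_cast h3
  have hτ1 : 1 ≤ τ := by
    have := hdiv 1 one_ne_zero (Nat.one_le_pow _ _ hN1)
    simpa using this
  set K : ℝ := ((PD α N).card : ℝ) with hK
  have hKpos : 0 < (PD α N).card := by
    rcases Nat.eq_zero_or_pos (PD α N).card with h | h
    · rw [hK, h] at hp
      simp only [Nat.cast_zero, zero_mul, mul_zero] at hp
      linarith
    · exact h
  have hK0 : 0 < K := by rw [hK]; exact_mod_cast hKpos
  have h := general (α := α) (N := N) hN1 (a := a) (G := 8 * τ) (S := S) (T := T) (J := J)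
    (D := τ) (Y := Y) hY hKpos hxN hS hS2 hT2 (by
      intro m hm1 hm2
      have hm3 : m ≤ N ^ 3 := by
        calc m ≤ T * J * N := hm2
          _ ≤ N * N * N := by gcongr
          _ = N ^ 3 := by ring
      refine le_trans (card_le_card ?_) (hdiv m (by omega) hm3)
      intro t ht
      rw [mem_filter] at ht
      exact Nat.mem_divisors.2 ⟨ht.2, by omega⟩)
    (B := (Om S T J).filter fun w => (coveredCount α N (aff a w.1 w.2.1 (w.2.2 * N)) : ℝ) ≤
        Y) (filter_subset _ _) (by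
      intro w hw
      obtain ⟨⟨c1, c2⟩, -⟩ := mem_Om.1 (mem_filter.1 hw).1
      have hw0 : w.1 ≠ 0 := by omega
      have hw3 : w.1 ≤ N ^ 3 := by
        calc w.1 ≤ N := by omega
          _ = N ^ 1 := (pow_one _).symm
          _ ≤ N ^ 3 := Nat.pow_le_pow_right hN1 (by norm_num)
      have hτ0 : (0 : ℝ) < τ := by exact_mod_cast hτ1
      calc ∑ d ∈ w.1.divisors.filter (fun d => 8 * τ ≤ d), (1 : ℝ) / d
          ≤ ∑ d ∈ w.1.divisors.filter (fun d => 8 * τ ≤ d), (1 : ℝ) / (8 * τ) := by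
            refine sum_le_sum fun d hd => ?_
            have hd2 : ((8 * τ : ℕ) : ℝ) ≤ d := by exact_mod_cast (mem_filter.1 hd).2
            push_cast at hd2
            exact div_le_div_of_nonneg_left zero_le_one (by positivity) hd2
        _ = ((w.1.divisors.filter (fun d => 8 * τ ≤ d)).card : ℝ) * (1 / (8 * τ)) := by
            rw [sum_const, nsmul_eq_mul]
        _ ≤ τ * (1 / (8 * τ)) := by
            have : ((w.1.divisors.filter (fun d => 8 * τ ≤ d)).card : ℝ) ≤ τ := by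
              exact_mod_cast (card_le_card (filter_subset _ _)).trans (hdiv w.1 hw0 hw3)
            gcongr
        _ = 1 / 8 := by field_simp) (by
      intro w hw
      obtain ⟨⟨c1, c2⟩, -⟩ := mem_Om.1 (mem_filter.1 hw).1
      have hw0 : w.1 ≠ 0 := by omega
      have hw3 : w.1 ≤ N ^ 3 := by
        calc w.1 ≤ N := by omega
          _ = N ^ 1 := (pow_one _).symm
          _ ≤ N ^ 3 := Nat.pow_le_pow_right hN1 (by norm_num)
      have h1 : (w.1.divisors.card : ℝ) ≤ τ := by exact_mod_cast hdiv w.1 hw0 hw3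
      have h2 : (N : ℝ) ^ (3 * e) ≤ (N : ℝ) ^ ((1 - α) / 2) :=
        Real.rpow_le_rpow_of_exponent_le hN1' (by linarith)
      have h3 : (1 : ℝ) ≤ (N : ℝ) ^ ((1 - α) / 2) := Real.one_le_rpow hN1' (by linarith)
      have h4 : (N : ℝ) / (8 * (N : ℝ) ^ α) = (N : ℝ) ^ ((1 - α) / 2) * (N : ℝ) ^ ((1 - α) / 2) / 8 := by
        rw [← Real.rpow_add hN0, show (1 - α) / 2 + (1 - α) / 2 = 1 - α by ring,
          Real.rpow_sub hN0, Real.rpow_one]
        field_simp
      rw [h4, le_div_iff₀ (by norm_num)]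
      calc (1 + (w.1.divisors.card : ℝ)) * 8
          ≤ ((C + 2) * (N : ℝ) ^ ((1 - α) / 2)) * 8 := by nlinarith
        _ ≤ (16 * (C + 2)) * (N : ℝ) ^ ((1 - α) / 2) := by nlinarith
        _ ≤ _ := by gcongr) (by
      intro w hw
      exact (mem_filter.1 hw).2)
  refine h.trans ?_
  rw [← hK]
  have h5 : (N : ℝ) ^ α / K ≤ 4 * (N : ℝ) ^ (ε / 2) := by
    rw [div_le_iff₀ hK0]
    calc (N : ℝ) ^ α ≤ 4 * (K * Real.log N) := hp
      _ ≤ 4 * (K * (N : ℝ) ^ (ε / 2)) := by gcongr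
      _ = _ := by ring
  have h6 : (τ : ℝ) * ((8 * τ : ℕ) : ℝ) ≤ 8 * (C + 2) ^ 2 * (N : ℝ) ^ (ε / 2) := by
    push_cast
    have h7 : (N : ℝ) ^ (3 * e) ≤ (N : ℝ) ^ (ε / 4) :=
      Real.rpow_le_rpow_of_exponent_le hN1' (by linarith)
    have h8 : (τ : ℝ) ≤ (C + 2) * (N : ℝ) ^ (ε / 4) := by
      have : (0 : ℝ) ≤ (N : ℝ) ^ (ε / 4) := by positivity
      nlinarith
    have h9 : (N : ℝ) ^ (ε / 4) * (N : ℝ) ^ (ε / 4) = (N : ℝ) ^ (ε / 2) := by
      rw [← Real.rpow_add hN0]; congr 1; ring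
    calc (τ : ℝ) * (8 * τ) = 8 * (τ * τ) := by ring
      _ ≤ 8 * (((C + 2) * (N : ℝ) ^ (ε / 4)) * ((C + 2) * (N : ℝ) ^ (ε / 4))) := by gcongr
      _ = 8 * (C + 2) ^ 2 * ((N : ℝ) ^ (ε / 4) * (N : ℝ) ^ (ε / 4)) := by ring
      _ = _ := by rw [h9]
  have h10 : (N : ℝ) ^ (ε / 2) * (N : ℝ) ^ (ε / 2) = (N : ℝ) ^ ε := by
    rw [← Real.rpow_add hN0]; congr 1; ring
  set W : ℝ := (N : ℝ) ^ (ε / 2) with hW
  have hW0 : 0 ≤ W := by rw [hW]; positivity
  set V : ℝ := (S : ℝ) * T * J with hV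
  have hV0 : 0 ≤ V := by rw [hV]; positivity
  set Z : ℝ := (N : ℝ) ^ (2 * α - 1) with hZ
  have hZ0 : 0 ≤ Z := by rw [hZ]; positivity
  set n : ℝ := Y / N with hn
  have hn0 : 0 ≤ n := by positivity
  calc 16 * n * (2 * V * ((N : ℝ) ^ α / K) + (τ : ℝ) * ((8 * τ : ℕ) : ℝ) * (Z + 4 * V))
      ≤ 16 * n * (2 * V * (4 * W) + 8 * (C + 2) ^ 2 * W * (Z + 4 * V)) := by gcongr
    _ ≤ 16 * n * ((8 + 32 * (C + 2) ^ 2) * W * (V + Z)) := by
        gcongr
        have : 0 ≤ (C + 2) ^ 2 * W := by positivity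
        nlinarith [mul_nonneg hW0 hZ0, mul_nonneg hW0 hV0, mul_nonneg this hZ0]
    _ = n * (((128 + 512 * (C + 2) ^ 2) * W) * (V + Z)) := by ring
    _ ≤ n * ((W * W) * (V + Z)) := by gcongr
    _ = _ := by rw [h10]; ring

/-- the sum of `1 / d` over the divisors `d ≥ G` of `s` -/
noncomputable def H (G s : ℕ) : ℝ := ∑ d ∈ s.divisors.filter (fun d => G ≤ d), (1 : ℝ) / d

/-- the numbers with many large divisors are few -/
theorem few {G S : ℕ} (hG : 2 ≤ G) :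
    ((((Ico S (2 * S)).filter fun s => ¬ H G s ≤ 1 / 8).card : ℕ) : ℝ) * (G - 1) ≤ 16 * S := by
  set E := (Ico S (2 * S)).filter fun s => ¬ H G s ≤ 1 / 8 with hE
  have hG1 : (0 : ℝ) < G - 1 := by
    have : (2 : ℝ) ≤ G := by exact_mod_cast hG
    linarith
  rcases Nat.eq_zero_or_pos S with hS | hS
  · have : E = ∅ := by rw [hE, hS]; simp
    rw [this]; simp
  have h1 : (E.card : ℝ) * (1 / 8) ≤
      ∑ s ∈ Ico S (2 * S), H G s := by
    rw [← nsmul_eq_mul]
    refine (card_nsmul_le_sum E _ _ fun s hs => ?_).trans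
      (sum_le_sum_of_subset_of_nonneg (filter_subset _ _) fun s _ _ =>
        sum_nonneg fun d _ => by positivity)
    exact (not_le.1 (mem_filter.1 hs).2).le
  have h2 : ∑ s ∈ Ico S (2 * S), H G s ≤
      ∑ d ∈ Ioo (G - 1) (2 * S), (2 * S : ℝ) * ((d : ℝ) ^ 2)⁻¹ := by
    calc ∑ s ∈ Ico S (2 * S), H G s
        = ∑ s ∈ Ico S (2 * S), ∑ d ∈ (Ioo (G - 1) (2 * S)).filter (fun d => d ∣ s), (1 : ℝ) / d := by
          refine sum_congr rfl fun s hs => sum_congr ?_ fun _ _ => rfl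
          rw [mem_Ico] at hs
          ext d
          rw [mem_filter, mem_filter, Nat.mem_divisors, mem_Ioo]
          constructor
          · rintro ⟨⟨h1, h2⟩, h3⟩
            have := Nat.le_of_dvd (by omega) h1
            exact ⟨⟨by omega, by omega⟩, h1⟩
          · rintro ⟨⟨h1, h2⟩, h3⟩
            exact ⟨⟨h3, by omega⟩, by omega⟩
      _ = ∑ d ∈ Ioo (G - 1) (2 * S), ∑ s ∈ (Ico S (2 * S)).filter (fun s => d ∣ s), (1 : ℝ) / d := by
          simp_rw [sum_filter]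
          exact sum_comm
      _ ≤ _ := by
          refine sum_le_sum fun d hd => ?_
          rw [mem_Ioo] at hd
          have hd0 : 0 < d := by omega
          have hd0' : (0 : ℝ) < d := by exact_mod_cast hd0
          rw [sum_const, nsmul_eq_mul]
          have hc : ((Ico S (2 * S)).filter (fun s => d ∣ s)).card ≤ 2 * S / d := by
            have hsub : (Ico S (2 * S)).filter (fun s => d ∣ s) ⊆
                (Ioc 0 (2 * S)).filter (fun s => d ∣ s) := by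
              intro s hs
              rw [mem_filter, mem_Ico] at hs
              rw [mem_filter, mem_Ioc]
              exact ⟨⟨by omega, by omega⟩, hs.2⟩
            refine (card_le_card hsub).trans (le_of_eq ?_)
            exact Nat.Ioc_filter_dvd_card_eq_div (2 * S) d
          have hc2 : (((Ico S (2 * S)).filter (fun s => d ∣ s)).card : ℝ) ≤ 2 * S / d := by
            calc (((Ico S (2 * S)).filter (fun s => d ∣ s)).card : ℝ) ≤ ((2 * S / d : ℕ) : ℝ) := by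
                  exact_mod_cast hc
              _ ≤ ((2 * S : ℕ) : ℝ) / d := Nat.cast_div_le
              _ = _ := by push_cast; rfl
          calc (((Ico S (2 * S)).filter (fun s => d ∣ s)).card : ℝ) * (1 / d)
              ≤ (2 * S / d) * (1 / d) := by gcongr
            _ = _ := by field_simp
  have h3 : ∑ d ∈ Ioo (G - 1) (2 * S), (2 * S : ℝ) * ((d : ℝ) ^ 2)⁻¹ ≤ 2 * S / (G - 1) := by
    rw [← mul_sum]
    have h4 : ∑ d ∈ Ioo (G - 1) (2 * S), ((d : ℝ) ^ 2)⁻¹ ≤ (G - 1 : ℝ)⁻¹ := by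
      have h5 : ∑ d ∈ Ioo (G - 1) (2 * S), ((d : ℝ) ^ 2)⁻¹ ≤
          ∑ d ∈ Ioc (G - 1) (max (2 * S) G), ((d : ℝ) ^ 2)⁻¹ := by
        refine sum_le_sum_of_subset_of_nonneg ?_ fun _ _ _ => by positivity
        intro d hd
        rw [mem_Ioo] at hd
        rw [mem_Ioc]
        exact ⟨hd.1, le_trans hd.2.le (le_max_left _ _)⟩
      have h6 := sum_Ioc_inv_sq_le_sub (α := ℝ) (k := G - 1) (n := max (2 * S) G) (by omega)
        (le_trans (by omega) (le_max_right _ _))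
      refine h5.trans (h6.trans ?_)
      have : ((G - 1 : ℕ) : ℝ) = (G : ℝ) - 1 := by
        rw [Nat.cast_sub (by omega)]; simp
      rw [this]
      have h7 : (0 : ℝ) ≤ ((max (2 * S) G : ℕ) : ℝ)⁻¹ := by positivity
      linarith
    calc (2 * S : ℝ) * ∑ d ∈ Ioo (G - 1) (2 * S), ((d : ℝ) ^ 2)⁻¹ ≤ 2 * S * (G - 1 : ℝ)⁻¹ := by
          gcongr
      _ = _ := by rw [div_eq_mul_inv]
  have h8 : (E.card : ℝ) * (1 / 8) ≤ 2 * S / (G - 1) := h1.trans (h2.trans h3)
  rw [le_div_iff₀ hG1] at h8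
  linarith

theorem part_two {δ : ℝ} (hδ : 0 < δ) : ∃ c : ℝ, 0 < c ∧ ∀ α : ℝ, 0 < α → α < 1 →
    ∃ N₀ : ℕ, ∀ N ≥ N₀, ∀ a : (p : ℕ) → ZMod p, ∀ S J : ℕ, 1 ≤ S → 1 ≤ J →
      2 * (S : ℝ) ≤ (N : ℝ) ^ α → (N : ℝ) ^ (2 * α - 1) ≤ S * J →
      (((Om S 1 J).filter fun w => (coveredCount α N (aff a w.1 w.2.1 (w.2.2 * N)) : ℝ) ≤
        c * N / Real.log N).card : ℝ) ≤ δ * (S * J) := by
  classical
  set G : ℕ := ⌈32 / δ⌉₊ + 2 with hGdef
  have hG2 : 2 ≤ G := by omega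
  have hGδ : 32 / δ ≤ (G : ℝ) - 1 := by
    have := Nat.le_ceil (32 / δ)
    rw [hGdef]; push_cast; linarith
  have hG0 : (0 : ℝ) < G := by exact_mod_cast (by omega : 0 < G)
  refine ⟨δ / (32 * (8 + 5 * G)), by positivity, fun α h0 h1 => ?_⟩
  set e : ℝ := (1 - α) / 2 with he
  have he0 : 0 < e := by rw [he]; linarith
  obtain ⟨C, hC0, hC⟩ := H353.divisor_bound_real e he0
  have ev1 := Pool.Agent.R416.CV.ev_primes h0 h1
  have ev2 := (Real.tendsto_log_atTop.comp tendsto_natCast_atTop_atTop).eventually_ge_atTop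
    (1 : ℝ)
  have ev3 := ev_const (8 * (C + 2)) he0
  obtain ⟨N₀, hN₀⟩ := eventually_atTop.1 (((ev1.and ev2).and ev3).and
    (eventually_ge_atTop 1))
  refine ⟨N₀, fun N hN a S J hS hJ hS2 hSJ => ?_⟩
  obtain ⟨⟨⟨hp, hlog⟩, hc1⟩, hN1⟩ := hN₀ N hN
  have hlog1 : 1 ≤ Real.log N := hlog
  have hlog0 : 0 < Real.log N := by linarith
  have hN0 : (0 : ℝ) < N := by exact_mod_cast hN1
  have hN1' : (1 : ℝ) ≤ N := by exact_mod_cast hN1
  have hxN : (N : ℝ) ^ α ≤ N := by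
    calc (N : ℝ) ^ α ≤ (N : ℝ) ^ (1 : ℝ) := Real.rpow_le_rpow_of_exponent_le hN1' h1.le
      _ = N := Real.rpow_one _
  have hx0 : (0 : ℝ) < (N : ℝ) ^ α := Real.rpow_pos_of_pos hN0 _
  have hSN : 2 * S ≤ N := by
    have : 2 * (S : ℝ) ≤ N := hS2.trans hxN
    exact_mod_cast this
  have hS0 : (0 : ℝ) < S := by exact_mod_cast hS
  have hJ0 : (0 : ℝ) < J := by exact_mod_cast hJ
  set K : ℝ := ((PD α N).card : ℝ) with hK
  have hKpos : 0 < (PD α N).card := by
    rcases Nat.eq_zero_or_pos (PD α N).card with h | h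
    · rw [hK, h] at hp
      simp only [Nat.cast_zero, zero_mul, mul_zero] at hp
      linarith
    · exact h
  have hK0 : 0 < K := by rw [hK]; exact_mod_cast hKpos
  have hT2 : ((1 : ℕ) : ℝ) < (N : ℝ) ^ α := by
    have : (1 : ℝ) ≤ S := by exact_mod_cast hS
    push_cast; linarith
  set c : ℝ := δ / (32 * (8 + 5 * G)) with hc
  have hc0 : 0 < c := by rw [hc]; positivity
  set B := (Om S 1 J).filter fun w => (coveredCount α N (aff a w.1 w.2.1 (w.2.2 * N)) : ℝ) ≤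
        c * N / Real.log N with hB
  set B₁ := B.filter fun w => H G w.1 ≤ 1 / 8
    with hB₁
  set B₂ := B.filter fun w => ¬ H G w.1 ≤ 1 / 8
    with hB₂
  have hcard : B.card = B₁.card + B₂.card := (card_filter_add_card_filter_not _).symm
  have h := general (α := α) (N := N) hN1 (a := a) (G := G) (S := S) (T := 1) (J := J)
    (D := 1) (Y := c * N / Real.log N) (by positivity) hKpos hxN hS hS2 hT2 (by
      intro m hm1 hm2
      refine (card_le_card (filter_subset _ _)).trans (by simp))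
    (B := B₁) ((filter_subset _ _).trans (filter_subset _ _)) (by
      intro w hw
      exact (mem_filter.1 hw).2) (by
      intro w hw
      obtain ⟨⟨c1, c2⟩, -⟩ := mem_Om.1 (mem_filter.1 (mem_filter.1 hw).1).1
      have hw0 : w.1 ≠ 0 := by omega
      have hw3 : w.1 ≤ N := by omega
      have h1 := hC w.1 hw0
      have h2 : (w.1 : ℝ) ^ e ≤ (N : ℝ) ^ e :=
        Real.rpow_le_rpow (Nat.cast_nonneg _) (by exact_mod_cast hw3) he0.le
      have h3 : (1 : ℝ) ≤ (N : ℝ) ^ e := Real.one_le_rpow hN1' he0.le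
      have h4 : (N : ℝ) / (8 * (N : ℝ) ^ α) = (N : ℝ) ^ e * (N : ℝ) ^ e / 8 := by
        rw [← Real.rpow_add hN0, he, show (1 - α) / 2 + (1 - α) / 2 = 1 - α by ring,
          Real.rpow_sub hN0, Real.rpow_one]
        field_simp
      rw [h4, le_div_iff₀ (by norm_num)]
      calc (1 + (w.1.divisors.card : ℝ)) * 8
          ≤ ((C + 2) * (N : ℝ) ^ e) * 8 := by
            have : C * (w.1 : ℝ) ^ e ≤ C * (N : ℝ) ^ e := by gcongr
            nlinarith
        _ = (8 * (C + 2)) * (N : ℝ) ^ e := by ring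
        _ ≤ _ := by gcongr) (by
      intro w hw
      exact (mem_filter.1 (mem_filter.1 hw).1).2)
  rw [← hK] at h
  have h5 : (N : ℝ) ^ α / K ≤ 4 * Real.log N := by
    rw [div_le_iff₀ hK0]
    calc (N : ℝ) ^ α ≤ 4 * (K * Real.log N) := hp
      _ = _ := by ring
  have h6 : (B₁.card : ℝ) ≤ δ / 2 * (S * J) := by
    refine h.trans ?_
    have e1 : c * N / Real.log N / N = c / Real.log N := by field_simp
    rw [e1]
    push_cast
    calc 16 * (c / Real.log N) * (2 * ((S : ℝ) * 1 * J) * ((N : ℝ) ^ α / K) +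
          1 * G * ((N : ℝ) ^ (2 * α - 1) + 4 * ((S : ℝ) * 1 * J)))
        ≤ 16 * (c / Real.log N) * (2 * ((S : ℝ) * 1 * J) * (4 * Real.log N) +
          1 * G * (S * J + 4 * ((S : ℝ) * 1 * J))) := by gcongr
      _ = 16 * c * (8 + 5 * G / Real.log N) * (S * J) := by field_simp; ring
      _ ≤ 16 * c * (8 + 5 * G / 1) * (S * J) := by gcongr
      _ = δ / 2 * (S * J) := by rw [hc]; field_simp; ring
  have h7 : (B₂.card : ℝ) ≤ δ / 2 * (S * J) := by
    have hf := few (S := S) hG2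
    set E := (Ico S (2 * S)).filter fun s => ¬ H G s ≤ 1 / 8 with hE
    have h8 : B₂.card ≤ E.card * J := by
      have : (E ×ˢ range J).card = E.card * J := by rw [card_product, card_range]
      rw [← this]
      refine card_le_card_of_injOn (fun w => (w.1, w.2.2)) ?_ ?_
      · intro w hw
        have hw' := mem_filter.1 (mem_coe.1 hw)
        obtain ⟨⟨c1, c2⟩, -, c5, -⟩ := mem_Om.1 (mem_filter.1 hw'.1).1
        simp only [coe_product, Set.mem_prod, mem_coe, mem_range]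
        exact ⟨mem_filter.2 ⟨mem_Ico.2 ⟨c1, c2⟩, hw'.2⟩, c5⟩
      · intro w hw w' hw' hee
        have k1 := mem_Om.1 (mem_filter.1 (mem_filter.1 (mem_coe.1 hw)).1).1
        have k2 := mem_Om.1 (mem_filter.1 (mem_filter.1 (mem_coe.1 hw')).1).1
        simp only [Prod.mk.injEq] at hee
        refine Prod.ext hee.1 (Prod.ext ?_ hee.2)
        omega
    have h9 : (E.card : ℝ) ≤ δ / 2 * S := by
      have h10 : (E.card : ℝ) * (32 / δ) ≤ 16 * S :=
        (mul_le_mul_of_nonneg_left hGδ (Nat.cast_nonneg _)).trans hf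
      rw [mul_div_assoc', div_le_iff₀ hδ] at h10
      linarith
    calc (B₂.card : ℝ) ≤ ((E.card * J : ℕ) : ℝ) := by exact_mod_cast h8
      _ = E.card * J := by push_cast; ring
      _ ≤ (δ / 2 * S) * J := by gcongr
      _ = _ := by ring
  rw [hcard]
  push_cast
  linarith

end Pool.Agent.Zk72.Dil
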