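import Pool.Agent.Zk72.Dil.Core

/-!
The second moment over a family of dilates, and the bound for the number of bad dilates.
-/

set_option autoImplicit false

namespace Pool.Agent.Zk72.Dil

open Finset

/-- the parameters `(s, t, j)` -/
def Om (S T J : ℕ) : Finset (ℕ × ℕ × ℕ) :=
  (Ico S (2 * S) ×ˢ Icc 1 T ×ˢ range J).filter fun w => w.1.Coprime w.2.1

/-- the covered elements of the window -/
def cov (Q : Finset ℕ) (a : (p : ℕ) → ZMod p) (N : ℕ) (w : ℕ × ℕ × ℕ) : Finset ℕ :=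
  (Ioc (w.2.2 * N) (w.2.2 * N + N)).filter fun n => ∃ p ∈ Q, On a w.1 (w.2.1 * n) p

/-- the pairs of a parameter and an element of the window with a small common divisor -/
def Pa (N G S T J : ℕ) : Finset (Σ _ : ℕ × ℕ × ℕ, ℕ) :=
  (Om S T J).sigma fun w => good (w.2.2 * N) N G w.1

theorem mem_Om {S T J : ℕ} {w : ℕ × ℕ × ℕ} : w ∈ Om S T J ↔
    (S ≤ w.1 ∧ w.1 < 2 * S) ∧ (1 ≤ w.2.1 ∧ w.2.1 ≤ T) ∧ w.2.2 < J ∧ w.1.Coprime w.2.1 := by
  rw [Om, mem_filter, mem_product, mem_product, mem_Ico, mem_Icc, mem_range]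
  tauto

theorem mem_Pa {N G S T J : ℕ} {v : Σ _ : ℕ × ℕ × ℕ, ℕ} : v ∈ Pa N G S T J ↔
    v.1 ∈ Om S T J ∧ (v.1.2.2 * N < v.2 ∧ v.2 ≤ v.1.2.2 * N + N) ∧ v.1.1.gcd v.2 < G := by
  rw [Pa, mem_sigma, good, mem_filter, mem_Ioc]

theorem pair_card {a : (p : ℕ) → ZMod p} {N G S T J D p q : ℕ} {x : ℝ} (hx : 0 < x) (hS : 0 < S)
    (hN : 0 < N) (hp : p.Prime) (hq : q.Prime) (hpq : p ≠ q) (hpx : x ≤ p) (hqx : x ≤ q)
    (hD : ∀ m, 1 ≤ m → m ≤ T * J * N → ((Icc 1 T).filter fun t => t ∣ m).card ≤ D) :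
    ((((Pa N G S T J).filter fun v =>
      On a v.1.1 (v.1.2.1 * v.2) p ∧ On a v.1.1 (v.1.2.1 * v.2) q).card : ℕ) : ℝ) ≤
      D * (G * (1 + 4 * ((T * J * N : ℕ) : ℝ) * S / x ^ 2)) := by
  set E := (Pa N G S T J).filter fun v =>
      On a v.1.1 (v.1.2.1 * v.2) p ∧ On a v.1.1 (v.1.2.1 * v.2) q with hE
  have hmem : ∀ v ∈ E, v.1 ∈ Om S T J ∧ (v.1.2.2 * N < v.2 ∧ v.2 ≤ v.1.2.2 * N + N) ∧
      v.1.1.gcd v.2 < G ∧ On a v.1.1 (v.1.2.1 * v.2) p ∧ On a v.1.1 (v.1.2.1 * v.2) q := by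
    intro v hv
    rw [hE, mem_filter, mem_Pa] at hv
    tauto
  set f : (Σ _ : ℕ × ℕ × ℕ, ℕ) → ℕ × ℕ := fun v => (v.1.1, v.1.2.1 * v.2) with hf
  have him : E.image f ⊆ pts a S (T * J * N) G p q := by
    intro w hw
    obtain ⟨v, hv, rfl⟩ := mem_image.1 hw
    obtain ⟨h1, ⟨h2, h3⟩, h4, h5, h6⟩ := hmem v hv
    obtain ⟨⟨c1, c2⟩, ⟨c3, c4⟩, c5, c6⟩ := mem_Om.1 h1
    rw [pts, mem_filter, mem_product, mem_Ico, mem_Icc]
    refine ⟨⟨⟨c1, c2⟩, ?_, ?_⟩, ?_, h5, h6⟩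
    · exact Nat.mul_pos c3 (by omega)
    · have : v.2 ≤ J * N := by
        calc v.2 ≤ v.1.2.2 * N + N := h3
          _ = (v.1.2.2 + 1) * N := by ring
          _ ≤ J * N := Nat.mul_le_mul_right _ c5
      calc v.1.2.1 * v.2 ≤ T * (J * N) := Nat.mul_le_mul c4 this
        _ = T * J * N := by ring
    · rw [Nat.Coprime.gcd_mul_left_cancel_right _ c6.symm]
      exact h4
  have hfib : ∀ w ∈ E.image f, (E.filter fun v => f v = w).card ≤ D := by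
    intro w hw
    have hw' := him hw
    rw [pts, mem_filter, mem_product, mem_Ico, mem_Icc] at hw'
    refine le_trans ?_ (hD w.2 hw'.1.2.1 hw'.1.2.2)
    refine card_le_card_of_injOn (fun v => v.1.2.1) ?_ ?_
    · intro v hv
      have hv' := mem_filter.1 (mem_coe.1 hv)
      obtain ⟨h1, -⟩ := hmem v hv'.1
      obtain ⟨-, ⟨c3, c4⟩, -⟩ := mem_Om.1 h1
      have h2 : v.1.2.1 * v.2 = w.2 := congrArg Prod.snd hv'.2
      simp only [coe_filter, Set.mem_ofPred_eq, mem_Icc]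
      exact ⟨⟨c3, c4⟩, h2 ▸ Dvd.intro _ rfl⟩
    · intro v hv v' hv' he
      have a1 := mem_filter.1 (mem_coe.1 hv)
      have a2 := mem_filter.1 (mem_coe.1 hv')
      obtain ⟨h1, ⟨h2, h3⟩, -⟩ := hmem v a1.1
      obtain ⟨h1', ⟨h2', h3'⟩, -⟩ := hmem v' a2.1
      obtain ⟨-, ⟨c3, c4⟩, -⟩ := mem_Om.1 h1
      have e0 : f v = f v' := a1.2.trans a2.2.symm
      simp only [hf, Prod.mk.injEq] at e0
      obtain ⟨e1, e2⟩ := e0
      have e3 : v.1.2.1 = v'.1.2.1 := he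
      have e4 : v.2 = v'.2 := by
        rw [e3] at e2
        exact Nat.eq_of_mul_eq_mul_left (by omega) e2
      have e5 : v.1.2.2 = v'.1.2.2 := by
        have k1 : v.1.2.2 * N < (v'.1.2.2 + 1) * N := by
          calc v.1.2.2 * N < v.2 := h2
            _ = v'.2 := e4
            _ ≤ v'.1.2.2 * N + N := h3'
            _ = _ := by ring
        have k2 : v'.1.2.2 * N < (v.1.2.2 + 1) * N := by
          calc v'.1.2.2 * N < v'.2 := h2'
            _ = v.2 := e4.symm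
            _ ≤ v.1.2.2 * N + N := h3
            _ = _ := by ring
        have k3 := Nat.lt_of_mul_lt_mul_right k1
        have k4 := Nat.lt_of_mul_lt_mul_right k2
        omega
      obtain ⟨⟨s, t, j⟩, n⟩ := v
      obtain ⟨⟨s', t', j'⟩, n'⟩ := v'
      simp only at e1 e3 e4 e5
      subst e1 e3 e4 e5
      rfl
  have h1 := card_le_mul_card_image E D hfib
  have h2 := pts_card (a := a) (S := S) (M := T * J * N) (G := G) hx hS hp hq hpq hpx hqx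
  calc (E.card : ℝ) ≤ ((D * (E.image f).card : ℕ) : ℝ) := by exact_mod_cast h1
    _ ≤ D * ((pts a S (T * J * N) G p q).card : ℝ) := by
        push_cast
        have : ((E.image f).card : ℝ) ≤ ((pts a S (T * J * N) G p q).card : ℝ) := by
          exact_mod_cast card_le_card him
        gcongr
    _ ≤ _ := by gcongr

theorem R_sq (Q : Finset ℕ) (a : (p : ℕ) → ZMod p) (s m : ℕ) :
    R Q a s m ^ 2 = ∑ p ∈ Q, ∑ q ∈ Q, if On a s m p ∧ On a s m q then 1 else 0 := by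
  rw [sq, R, ← card_product, ← sum_product', ← card_filter]
  congr 1
  ext v
  simp only [mem_product, mem_filter]
  tauto

theorem second {Q : Finset ℕ} {a : (p : ℕ) → ZMod p} {N G S T J D : ℕ} {x : ℝ} (hx : 0 < x)
    (hS : 0 < S) (hN : 0 < N) (hQ : ∀ p ∈ Q, p.Prime ∧ x ≤ p ∧ (p : ℝ) ≤ 2 * x)
    (hT : ∀ p ∈ Q, T < p)
    (hD : ∀ m, 1 ≤ m → m ≤ T * J * N → ((Icc 1 T).filter fun t => t ∣ m).card ≤ D) :
    ((∑ v ∈ Pa N G S T J, R Q a v.1.1 (v.1.2.1 * v.2) ^ 2 : ℕ) : ℝ) ≤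
      (S : ℝ) * T * J * (Q.card * (N / x + 1)) +
      (Q.card : ℝ) ^ 2 * (D * (G * (1 + 4 * ((T * J * N : ℕ) : ℝ) * S / x ^ 2))) := by
  set c : ℝ := D * (G * (1 + 4 * ((T * J * N : ℕ) : ℝ) * S / x ^ 2)) with hc
  have hc0 : 0 ≤ c := by positivity
  have h1 : ∑ v ∈ Pa N G S T J, R Q a v.1.1 (v.1.2.1 * v.2) ^ 2 =
      ∑ p ∈ Q, ∑ q ∈ Q, ((Pa N G S T J).filter fun v =>
        On a v.1.1 (v.1.2.1 * v.2) p ∧ On a v.1.1 (v.1.2.1 * v.2) q).card := by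
    simp_rw [R_sq, card_filter]
    rw [sum_comm]
    refine sum_congr rfl fun p _ => ?_
    rw [sum_comm]
  have hdiag : ∀ p ∈ Q, ((((Pa N G S T J).filter fun v =>
      On a v.1.1 (v.1.2.1 * v.2) p ∧ On a v.1.1 (v.1.2.1 * v.2) p).card : ℕ) : ℝ) ≤
      S * T * J * (N / x + 1) := by
    intro p hp
    obtain ⟨hpp, hp1, -⟩ := hQ p hp
    have e : (Pa N G S T J).filter (fun v =>
        On a v.1.1 (v.1.2.1 * v.2) p ∧ On a v.1.1 (v.1.2.1 * v.2) p) ⊆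
        (Om S T J).sigma fun w => cl a (w.2.2 * N) N w.1 w.2.1 p := by
      intro v hv
      rw [mem_filter, mem_Pa] at hv
      rw [mem_sigma, cl, mem_filter, mem_Ioc]
      exact ⟨hv.1.1, hv.1.2.1, hv.2.1⟩
    have e2 : (((Om S T J).sigma fun w => cl a (w.2.2 * N) N w.1 w.2.1 p).card : ℝ) ≤
        ((Om S T J).card : ℝ) * (N / x + 1) := by
      rw [card_sigma]
      push_cast
      rw [← nsmul_eq_mul]
      refine sum_le_card_nsmul _ _ _ fun w hw => ?_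
      obtain ⟨-, ⟨c3, c4⟩, -⟩ := mem_Om.1 hw
      have htp : ¬ p ∣ w.2.1 := fun h =>
        absurd (Nat.le_of_dvd (by omega) h) (not_le.2 (lt_of_le_of_lt c4 (hT p hp)))
      have := window_le (u := w.2.2 * N) (N := N) (r := p)
        (A := cl a (w.2.2 * N) N w.1 w.2.1 p) (filter_subset _ _)
        (fun n hn n' hn' => cl_modEq hpp htp hn hn')
      refine this.trans ?_
      have : (N : ℝ) / p ≤ N / x := div_le_div_of_nonneg_left (Nat.cast_nonneg _) hx hp1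
      linarith
    have e3 : ((Om S T J).card : ℝ) ≤ S * T * J := by
      have : (Om S T J).card ≤ S * T * J := by
        refine (card_le_card (filter_subset _ _)).trans (le_of_eq ?_)
        rw [card_product, card_product, Nat.card_Ico, Nat.card_Icc, card_range]
        have : 2 * S - S = S := by omega
        rw [this]
        simp [mul_assoc]
      exact_mod_cast this
    calc ((((Pa N G S T J).filter fun v =>
        On a v.1.1 (v.1.2.1 * v.2) p ∧ On a v.1.1 (v.1.2.1 * v.2) p).card : ℕ) : ℝ)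
        ≤ (((Om S T J).sigma fun w => cl a (w.2.2 * N) N w.1 w.2.1 p).card : ℝ) := by
          exact_mod_cast card_le_card e
      _ ≤ ((Om S T J).card : ℝ) * (N / x + 1) := e2
      _ ≤ _ := by gcongr
  rw [h1]
  push_cast
  have h2 : ∀ p ∈ Q, ∑ q ∈ Q, ((((Pa N G S T J).filter fun v =>
        On a v.1.1 (v.1.2.1 * v.2) p ∧ On a v.1.1 (v.1.2.1 * v.2) q).card : ℕ) : ℝ) ≤
        S * T * J * (N / x + 1) + Q.card * c := by
    intro p hp
    rw [← add_sum_erase Q _ hp]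
    refine add_le_add (hdiag p hp) ?_
    calc ∑ q ∈ Q.erase p, ((((Pa N G S T J).filter fun v =>
        On a v.1.1 (v.1.2.1 * v.2) p ∧ On a v.1.1 (v.1.2.1 * v.2) q).card : ℕ) : ℝ)
        ≤ (Q.erase p).card • c := by
          refine sum_le_card_nsmul _ _ _ fun q hq => ?_
          have hq' := mem_of_mem_erase hq
          exact pair_card hx hS hN (hQ p hp).1 (hQ q hq').1 (ne_of_mem_erase hq).symm (hQ p hp).2.1
            (hQ q hq').2.1 hD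
      _ = (Q.erase p).card * c := nsmul_eq_mul _ _
      _ ≤ Q.card * c := by
        have : ((Q.erase p).card : ℝ) ≤ Q.card := by exact_mod_cast card_le_card (erase_subset _ _)
        gcongr
  calc ∑ p ∈ Q, ∑ q ∈ Q, ((((Pa N G S T J).filter fun v =>
        On a v.1.1 (v.1.2.1 * v.2) p ∧ On a v.1.1 (v.1.2.1 * v.2) q).card : ℕ) : ℝ)
      ≤ Q.card • (S * T * J * (N / x + 1) + Q.card * c) := sum_le_card_nsmul _ _ _ h2
    _ = _ := by rw [nsmul_eq_mul]; ring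

/-- the number of bad parameters -/
theorem bad {Q : Finset ℕ} {a : (p : ℕ) → ZMod p} {N G S T J D : ℕ} {x Y : ℝ} (hx : 0 < x)
    (hS : 0 < S) (hN : 0 < N) (hQ : ∀ p ∈ Q, p.Prime ∧ x ≤ p ∧ (p : ℝ) ≤ 2 * x)
    (hS2 : ∀ p ∈ Q, 2 * S ≤ p) (hT : ∀ p ∈ Q, T < p)
    (hD : ∀ m, 1 ≤ m → m ≤ T * J * N → ((Icc 1 T).filter fun t => t ∣ m).card ≤ D)
    {B : Finset (ℕ × ℕ × ℕ)} (hB : B ⊆ Om S T J) (hY0 : 0 ≤ Y)
    (hG : ∀ w ∈ B, ∑ d ∈ w.1.divisors.filter (fun d => G ≤ d), (1 : ℝ) / d ≤ 1 / 8)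
    (hτ : ∀ w ∈ B, 1 + (w.1.divisors.card : ℝ) ≤ N / (8 * x))
    (hY : ∀ w ∈ B, ((cov Q a N w).card : ℝ) ≤ Y) :
    (B.card : ℝ) * (Q.card * (N / (4 * x))) ^ 2 ≤
      Y * ((S : ℝ) * T * J * (Q.card * (N / x + 1)) +
      (Q.card : ℝ) ^ 2 * (D * (G * (1 + 4 * ((T * J * N : ℕ) : ℝ) * S / x ^ 2)))) := by
  have hkey : ∀ w ∈ B, (Q.card * (N / (4 * x))) ^ 2 ≤
      Y * ((∑ n ∈ good (w.2.2 * N) N G w.1, R Q a w.1 (w.2.1 * n) ^ 2 : ℕ) : ℝ) := by
    intro w hw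
    obtain ⟨⟨c1, c2⟩, ⟨c3, c4⟩, -⟩ := mem_Om.1 (hB hw)
    have h1 := first (u := w.2.2 * N) (a := a) hx hQ (s := w.1) (t := w.2.1) (by omega)
      (fun p hp => lt_of_lt_of_le c2 (hS2 p hp)) (by omega)
      (fun p hp => lt_of_le_of_lt c4 (hT p hp)) (hG w hw) (hτ w hw)
    set g := good (w.2.2 * N) N G w.1 with hg
    set F : ℕ → ℝ := fun n => (R Q a w.1 (w.2.1 * n) : ℝ) with hF
    have h2 : ((∑ n ∈ g, R Q a w.1 (w.2.1 * n) : ℕ) : ℝ) =
        ∑ n ∈ g.filter (fun n => ∃ p ∈ Q, On a w.1 (w.2.1 * n) p), F n := by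
      push_cast
      rw [sum_filter]
      refine sum_congr rfl fun n _ => ?_
      split_ifs with h
      · rfl
      · rw [Nat.cast_eq_zero, R, card_eq_zero, filter_eq_empty_iff]
        exact fun p hp ho => h ⟨p, hp, ho⟩
    have h3 : (∑ n ∈ g.filter (fun n => ∃ p ∈ Q, On a w.1 (w.2.1 * n) p), F n) ^ 2 ≤
        ((g.filter (fun n => ∃ p ∈ Q, On a w.1 (w.2.1 * n) p)).card : ℝ) *
          ∑ n ∈ g.filter (fun n => ∃ p ∈ Q, On a w.1 (w.2.1 * n) p), F n ^ 2 :=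
      sq_sum_le_card_mul_sum_sq
    have h4 : ((g.filter (fun n => ∃ p ∈ Q, On a w.1 (w.2.1 * n) p)).card : ℝ) ≤ Y := by
      refine le_trans ?_ (hY w hw)
      have : g.filter (fun n => ∃ p ∈ Q, On a w.1 (w.2.1 * n) p) ⊆ cov Q a N w := by
        intro n hn
        rw [mem_filter, hg, good, mem_filter] at hn
        rw [cov, mem_filter]
        exact ⟨hn.1.1, hn.2⟩
      exact_mod_cast card_le_card this
    have h5 : ∑ n ∈ g.filter (fun n => ∃ p ∈ Q, On a w.1 (w.2.1 * n) p), F n ^ 2 ≤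
        ((∑ n ∈ g, R Q a w.1 (w.2.1 * n) ^ 2 : ℕ) : ℝ) := by
      push_cast
      exact sum_le_sum_of_subset_of_nonneg (filter_subset _ _) fun _ _ _ => sq_nonneg _
    have h0 : (0 : ℝ) ≤ Q.card * (N / (4 * x)) := by positivity
    calc ((Q.card : ℝ) * (N / (4 * x))) ^ 2
        ≤ ((∑ n ∈ g, R Q a w.1 (w.2.1 * n) : ℕ) : ℝ) ^ 2 := pow_le_pow_left₀ h0 h1 2
      _ = (∑ n ∈ g.filter (fun n => ∃ p ∈ Q, On a w.1 (w.2.1 * n) p), F n) ^ 2 := by rw [h2]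
      _ ≤ _ := h3
      _ ≤ Y * ((∑ n ∈ g, R Q a w.1 (w.2.1 * n) ^ 2 : ℕ) : ℝ) := by
        have hs0 : 0 ≤ ∑ n ∈ g.filter (fun n => ∃ p ∈ Q, On a w.1 (w.2.1 * n) p), F n ^ 2 :=
          sum_nonneg fun _ _ => sq_nonneg _
        exact mul_le_mul h4 h5 hs0 hY0
  have h6 : (B.card : ℝ) * (Q.card * (N / (4 * x))) ^ 2 ≤
      ∑ w ∈ B, Y * ((∑ n ∈ good (w.2.2 * N) N G w.1, R Q a w.1 (w.2.1 * n) ^ 2 : ℕ) : ℝ) := by
    rw [← nsmul_eq_mul]
    exact card_nsmul_le_sum _ _ _ hkey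
  refine h6.trans ?_
  rw [← mul_sum]
  refine mul_le_mul_of_nonneg_left ?_ hY0
  refine le_trans ?_ (second (G := G) (a := a) hx hS hN hQ hT hD)
  have h7 : ∑ w ∈ B, (∑ n ∈ good (w.2.2 * N) N G w.1, R Q a w.1 (w.2.1 * n) ^ 2) ≤
      ∑ v ∈ Pa N G S T J, R Q a v.1.1 (v.1.2.1 * v.2) ^ 2 := by
    rw [Pa, sum_sigma]
    exact sum_le_sum_of_subset hB
  exact_mod_cast h7

end Pool.Agent.Zk72.Dil
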